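import Pool.Agent.W125.SD.SUnitA
import Pool.Agent.H24R2.DZ.XB
import Pool.Agent.H24R2.DZ.Strip

set_option autoImplicit false

namespace Pool.Agent.W125.SD

open Pool.Agent.H24R2.DZ

/-- Zeros of the derivatives of `XX` in unit windows -/
theorem sunit (h : SB2) : SUnit := sunit_of xb strip h

end Pool.Agent.W125.SD
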