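import Pool.Agent.H24R2.DZ.Spec

set_option autoImplicit false

/-!
# Zeros of the derivatives of `XX` in unit windows (conditional form)
-/

namespace Pool.Agent.W125.SD

open Complex Filter Topology MeasureTheory Set Metric
open Pool.Agent.H24R2.JP (XX HH Om)
open Pool.Agent.H24R2.DZ

theorem XX_diff : Differentiable ℂ XX := by
  unfold XX
  have h : Differentiable ℂ (fun z : ℂ => completedRiemannZeta₀ (1 / 2 + z)) :=
    differentiable_completedZeta₀.comp (by fun_prop)
  fun_prop

/-- Jensen's inequality for finite sets of zeros -/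
theorem jcount0 {f : ℂ → ℂ} (hf : Differentiable ℂ f) {c : ℂ} {r R M : ℝ} (hr : 0 < r) (hrR : r < R)
    (hM1 : 1 ≤ M) (hc : f c ≠ 0) (hM : ∀ z, ‖z - c‖ ≤ R → ‖f z‖ ≤ M) (S : Finset ℂ)
    (hS : ∀ s ∈ S, ‖s - c‖ ≤ r) :
    ∑ s ∈ S, (analyticOrderNatAt f s : ℝ) ≤ Real.log (M / ‖f c‖) / Real.log (R / r) := by
  classical
  have hR : 0 < R := hr.trans hrR
  have habs : |R| = R := abs_of_pos hR
  have habr : |r| = r := abs_of_pos hr
  have han : ∀ ρ : ℝ, AnalyticOnNhd ℂ f (closedBall c ρ) := fun ρ z _ => hf.analyticAt z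
  have h1 := AnalyticOnNhd.sum_divisor_le (c := c) (r := r) (R := R) (M := M) (f := f)
    (by rw [habr]; exact hr) (by rw [habr, habs]; exact hrR) hM1 (han _) hc (by
      intro z hz
      rw [habs, mem_sphere_iff_norm] at hz
      exact hM z hz.le)
  rw [habr] at h1
  refine le_trans ?_ h1
  have hdiv : ∀ u ∈ closedBall c r, MeromorphicOn.divisor f (closedBall c r) u =
      (analyticOrderNatAt f u : ℤ) := by
    intro u hu
    rw [MeromorphicOn.AnalyticOnNhd.divisor_apply (han r) hu]
    unfold analyticOrderNatAt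
    cases h : analyticOrderAt f u with
    | top => simp
    | coe n => simp
  have hfin : (MeromorphicOn.divisor f (closedBall c r)).support.Finite :=
    (MeromorphicOn.divisor f (closedBall c r)).finiteSupport (isCompact_closedBall c r)
  rw [finsum_eq_sum_of_support_subset (s := S ∪ hfin.toFinset)]
  · push_cast
    have h2 : ∑ s ∈ S, (analyticOrderNatAt f s : ℝ) =
        ∑ s ∈ S, ((MeromorphicOn.divisor f (closedBall c r) s : ℤ) : ℝ) := by
      refine Finset.sum_congr rfl fun s hs => ?_
      rw [hdiv s (by rw [mem_closedBall_iff_norm]; exact hS s hs)]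
      push_cast
      rfl
    rw [h2]
    refine Finset.sum_le_sum_of_subset_of_nonneg Finset.subset_union_left ?_
    intro u _ _
    by_cases hu : u ∈ closedBall c r
    · rw [hdiv u hu]
      exact_mod_cast Nat.zero_le _
    · rw [Function.locallyFinsuppWithin.apply_eq_zero_of_notMem _ hu]
      simp
  · intro u hu
    rw [Finset.coe_union, Set.Finite.coe_toFinset]
    exact Or.inr hu

theorem order_const_mul {f : ℂ → ℂ} {a : ℂ} (ha : a ≠ 0) (s : ℂ) (hf : AnalyticAt ℂ f s) :
    analyticOrderNatAt (fun z => a * f z) s = analyticOrderNatAt f s := by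
  unfold analyticOrderNatAt
  congr 1
  have h1 : AnalyticAt ℂ (fun _ : ℂ => a) s := analyticAt_const
  have h2 := analyticOrderAt_mul h1 hf
  have h3 : analyticOrderAt (fun _ : ℂ => a) s = 0 := h1.analyticOrderAt_eq_zero.2 ha
  rw [h3, zero_add] at h2
  exact h2

/-- Jensen's inequality, scale invariant -/
theorem jcount {f : ℂ → ℂ} (hf : Differentiable ℂ f) {c : ℂ} {r R A : ℝ} (hr : 0 < r) (hrR : r < R)
    (hc : f c ≠ 0) (hM : ∀ z, ‖z - c‖ ≤ R → ‖f z‖ ≤ Real.exp A * ‖f c‖) (S : Finset ℂ)
    (hS : ∀ s ∈ S, ‖s - c‖ ≤ r) :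
    ∑ s ∈ S, (analyticOrderNatAt f s : ℝ) ≤ A / Real.log (R / r) := by
  have hcn : 0 < ‖f c‖ := norm_pos_iff.2 hc
  have hR : 0 < R := hr.trans hrR
  have hA : 1 ≤ Real.exp A := by
    have h := hM c (by simpa using hR.le)
    by_contra hlt
    push Not at hlt
    nlinarith
  have hg : Differentiable ℂ (fun z => (f c)⁻¹ * f z) := by fun_prop
  have h := jcount0 hg hr hrR (M := Real.exp A) hA (c := c) (by
    simp only [ne_eq, mul_eq_zero, inv_eq_zero, or_self]; exact hc) (by
    intro z hz
    rw [norm_mul, norm_inv, inv_mul_le_iff₀ hcn, mul_comm]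
    exact hM z hz) S hS
  rw [inv_mul_cancel₀ hc, norm_one, div_one, Real.log_exp] at h
  refine le_trans (le_of_eq ?_) h
  refine Finset.sum_congr rfl fun s _ => ?_
  rw [order_const_mul (inv_ne_zero hc) s (hf.analyticAt s)]

theorem iter_diff (m : ℕ) : Differentiable ℂ (iteratedDeriv m XX) :=
  (XX_diff.contDiff (n := ((m + 1 : ℕ) : WithTop ℕ∞))).differentiable_iteratedDeriv m
    (by exact_mod_cast Nat.lt_succ_self m)

theorem iter_scale (n : ℕ) (p ρ : ℂ) (w : ℂ) :
    iteratedDeriv n (fun w => XX (p + ρ * w)) w = ρ ^ n * iteratedDeriv n XX (p + ρ * w) := by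
  have hd : ∀ m, Differentiable ℂ (iteratedDeriv m XX) := iter_diff
  induction n generalizing w with
  | zero => simp
  | succ n ih =>
    rw [iteratedDeriv_succ]
    have h1 : iteratedDeriv n (fun w => XX (p + ρ * w)) =
        fun w => ρ ^ n * iteratedDeriv n XX (p + ρ * w) := funext fun w => ih w
    rw [h1]
    have h2 : HasDerivAt (fun w : ℂ => p + ρ * w) ρ w := by
      simpa using ((hasDerivAt_id w).const_mul ρ).const_add p
    have h3 : HasDerivAt (iteratedDeriv n XX) (iteratedDeriv (n + 1) XX (p + ρ * w)) (p + ρ * w) := by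
      rw [iteratedDeriv_succ]
      exact (hd n _).hasDerivAt
    have h4 : HasDerivAt (fun w => ρ ^ n * iteratedDeriv n XX (p + ρ * w))
        (ρ ^ n * (iteratedDeriv (n + 1) XX (p + ρ * w) * ρ)) w :=
      (HasDerivAt.comp w h3 h2).const_mul (ρ ^ n)
    rw [HasDerivAt.deriv h4]
    ring

theorem sunit_of (hX : SXB) (hSt : SStrip) (h : SB2) : SUnit := by
  obtain ⟨η, hη, hB⟩ := h
  obtain ⟨K0, T0, hT0, hX⟩ := hX 500
  set K : ℝ := |K0| + 1 with hKdef
  have hK1 : 1 ≤ K := by
    have := abs_nonneg K0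
    linarith
  have hKK : K0 ≤ K := by
    have := le_abs_self K0
    linarith
  have hlr : 0 < Real.log (204 / 202) := Real.log_pos (by norm_num)
  refine ⟨(302 + 2 * K) / Real.log (204 / 202), max T0 (Real.exp (2 * K / η + 2)), by positivity,
    ?_, ?_⟩
  · refine le_trans ?_ (le_max_right _ _)
    have h1 : (2 : ℝ) ≤ 2 * K / η + 2 := by
      have : 0 ≤ 2 * K / η := by positivity
      linarith
    have h2 := Real.add_one_le_exp (2 * K / η + 2)
    linarith
  intro t n ht hn S hS
  have htT : T0 ≤ t := (le_max_left _ _).trans ht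
  have ht1 : 1 ≤ t := hT0.trans htT
  have htpos : 0 < t := by linarith
  have hlog : 2 * K / η + 2 ≤ Real.log t := by
    rw [Real.le_log_iff_exp_le htpos]
    exact (le_max_right _ _).trans ht
  have hL0 : 0 ≤ 2 * K / η := by positivity
  set L : ℝ := Real.log t with hLdef
  have hL2 : 2 ≤ L := by linarith
  have hLK : K ≤ L / 2 * η := by
    have h1 : 2 * K / η ≤ L := by linarith
    rw [div_le_iff₀ hη] at h1
    linarith
  -- the local facts
  set p : ℂ := I * t + 200 with hp
  have hup : ∀ u : ℂ, ‖u‖ ≤ 500 → ‖XX (I * t + u)‖ ≤ Real.exp (K * L) * ‖HH (I * t)‖ := by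
    intro u hu
    refine (hX t u htT hu).1.trans ?_
    gcongr
  have hlow : ∀ u : ℂ, ‖u‖ ≤ 500 → 10 ≤ u.re → XX (I * t + u) ≠ 0 ∧
      ‖HH (I * t)‖ ≤ Real.exp (K * L) * ‖XX (I * t + u)‖ ∧
      ‖logDeriv XX (I * t + u) - ((L / 2 : ℝ) : ℂ)‖ ≤ K := by
    intro u hu hre
    obtain ⟨h1, h2, h3⟩ := (hX t u htT hu).2 hre
    refine ⟨h1, ?_, h3.trans hKK⟩
    have h4 : ‖HH (I * t)‖ ≤ Real.exp (K0 * L) * ‖XX (I * t + u)‖ := by
      calc ‖HH (I * t)‖ = Real.exp (K0 * L) * (Real.exp (-(K0 * L)) * ‖HH (I * t)‖) := by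
            rw [← mul_assoc, ← Real.exp_add, add_neg_cancel, Real.exp_zero, one_mul]
        _ ≤ Real.exp (K0 * L) * ‖XX (I * t + u)‖ := by gcongr
    refine h4.trans ?_
    gcongr
  have hpX := hlow 200 (by norm_num) (by norm_num)
  have hXp : XX p ≠ 0 := hpX.1
  have hXp0 : 0 < ‖XX p‖ := norm_pos_iff.2 hXp
  have hfac : (0 : ℝ) < (n.factorial : ℝ) := by exact_mod_cast n.factorial_pos
  -- lower bound at `p`
  have hder : (n.factorial : ℝ) * ‖XX p‖ ≤ Real.exp (302 * L) * ‖iteratedDeriv n XX p‖ := by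
    rcases Nat.eq_zero_or_pos n with rfl | hn1
    · simp only [Nat.factorial_zero, Nat.cast_one, one_mul, iteratedDeriv_zero]
      have : 1 ≤ Real.exp (302 * L) := Real.one_le_exp (by positivity)
      nlinarith
    · have hnr : (1 : ℝ) ≤ n := by exact_mod_cast hn1
      set ρ : ℝ := n / (L / 2) with hρ
      have hρ0 : 0 < ρ := by positivity
      have hρ120 : ρ ≤ 120 := by
        rw [hρ, div_le_iff₀ (by positivity)]
        linarith
      have hkey := hB n 0 (fun w => XX (p + (ρ : ℂ) * w)) hn1 (by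
        intro w hw
        rw [mem_ball_zero_iff] at hw
        have hw1 : ‖(ρ : ℂ) * w‖ ≤ 180 := by
          rw [norm_mul, Complex.norm_real, Real.norm_eq_abs, abs_of_pos hρ0]
          nlinarith [norm_nonneg w]
        have hre : |((ρ : ℂ) * w).re| ≤ 180 := (Complex.abs_re_le_norm _).trans hw1
        have h1 := hlow (200 + (ρ : ℂ) * w) (by
          have := norm_add_le (200 : ℂ) ((ρ : ℂ) * w)
          have h200 : ‖(200 : ℂ)‖ = 200 := by norm_num
          rw [h200] at this
          linarith) (by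
          have h200 : (200 : ℂ).re = 200 := by norm_num
          rw [Complex.add_re, h200]
          have := (abs_le.1 hre).1
          linarith)
        have heq : I * (t : ℂ) + (200 + (ρ : ℂ) * w) = p + ρ * w := by rw [hp]; ring
        rw [heq] at h1
        have hlin : HasDerivAt (fun w : ℂ => p + (ρ : ℂ) * w) ρ w := by
          simpa using ((hasDerivAt_id w).const_mul (ρ : ℂ)).const_add p
        have hd : HasDerivAt (fun w => XX (p + (ρ : ℂ) * w)) (deriv XX (p + ρ * w) * ρ) w :=
          HasDerivAt.comp w (XX_diff _).hasDerivAt hlin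
        refine ⟨hd.differentiableAt, h1.1, ?_⟩
        have hld : logDeriv (fun w => XX (p + (ρ : ℂ) * w)) w = logDeriv XX (p + ρ * w) * ρ := by
          rw [logDeriv_apply, hd.deriv, logDeriv_apply]
          ring
        have hn2 : (n : ℂ) = ((L / 2 : ℝ) : ℂ) * (ρ : ℂ) := by
          rw [← Complex.ofReal_mul, hρ, mul_div_cancel₀ _ (by positivity : (L / 2 : ℝ) ≠ 0)]
          simp
        rw [hld, hn2, ← sub_mul, norm_mul, Complex.norm_real, Real.norm_eq_abs, abs_of_pos hρ0]
        have h5 : ‖logDeriv XX (p + ρ * w) - ((L / 2 : ℝ) : ℂ)‖ * ρ ≤ K * ρ := by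
          gcongr
          exact h1.2.2
        refine h5.trans ?_
        have h6 : (n : ℝ) = L / 2 * ρ := by
          rw [hρ, mul_div_cancel₀ _ (by positivity : (L / 2 : ℝ) ≠ 0)]
        rw [h6]
        nlinarith)
      rw [iter_scale] at hkey
      simp only [mul_zero, add_zero] at hkey
      rw [norm_mul, norm_pow, Complex.norm_real, Real.norm_eq_abs, abs_of_pos hρ0] at hkey
      refine hkey.trans ?_
      rw [← mul_assoc]
      gcongr
      have h120 : (120 : ℝ) ≤ Real.exp 5 := by
        have h1 := Real.exp_one_gt_d9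
        have h2 : Real.exp 5 = Real.exp 1 ^ 5 := by rw [← Real.exp_nat_mul]; norm_num
        rw [h2]
        calc (120 : ℝ) ≤ 2.7 ^ 5 := by norm_num
          _ ≤ Real.exp 1 ^ 5 := by gcongr; linarith
      have h2e : (2 : ℝ) ≤ Real.exp 1 := by
        have h1 := Real.exp_one_gt_d9
        linarith
      calc 2 * ρ ^ n ≤ Real.exp 1 * (Real.exp 5) ^ n := by
            gcongr
            exact hρ120.trans h120
        _ = Real.exp (1 + n * 5) := by rw [← Real.exp_nat_mul, ← Real.exp_add]
        _ ≤ Real.exp (302 * L) := by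
            apply Real.exp_le_exp.2
            linarith
  have hne : iteratedDeriv n XX p ≠ 0 := by
    intro h0
    rw [h0, norm_zero, mul_zero] at hder
    have : 0 < (n.factorial : ℝ) * ‖XX p‖ := by positivity
    linarith
  have hdn : Differentiable ℂ (iteratedDeriv n XX) := iter_diff n
  have hbound : ∀ z, ‖z - p‖ ≤ 204 → ‖iteratedDeriv n XX z‖ ≤
      Real.exp ((302 + 2 * K) * L) * ‖iteratedDeriv n XX p‖ := by
    intro z hz
    have hc := Complex.norm_iteratedDeriv_le_of_forall_mem_sphere_norm_le n (c := z) (R := 1)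
      (C := Real.exp (K * L) * ‖HH (I * t)‖) (f := XX) one_pos XX_diff.diffContOnCl (by
        intro w hw
        rw [mem_sphere_iff_norm] at hw
        have hw2 : w = I * t + (w - I * t) := by ring
        rw [hw2]
        refine hup _ ?_
        have hw3 : w - I * t = (w - z) + (z - p) + 200 := by rw [hp]; ring
        rw [hw3]
        have h1 := norm_add_le ((w - z) + (z - p)) (200 : ℂ)
        have h2 := norm_add_le (w - z) (z - p)
        have h200 : ‖(200 : ℂ)‖ = 200 := by norm_num
        rw [h200] at h1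
        linarith)
    rw [one_pow, div_one] at hc
    refine hc.trans ?_
    calc (n.factorial : ℝ) * (Real.exp (K * L) * ‖HH (I * t)‖)
        ≤ (n.factorial : ℝ) * (Real.exp (K * L) * (Real.exp (K * L) * ‖XX p‖)) := by
          gcongr
          exact hpX.2.1
      _ = Real.exp (2 * K * L) * ((n.factorial : ℝ) * ‖XX p‖) := by
          have : Real.exp (2 * K * L) = Real.exp (K * L) * Real.exp (K * L) := by
            rw [← Real.exp_add]; congr 1; ring
          rw [this]; ring
      _ ≤ Real.exp (2 * K * L) * (Real.exp (302 * L) * ‖iteratedDeriv n XX p‖) := by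
          gcongr
      _ = _ := by
          rw [← mul_assoc, ← Real.exp_add]
          congr 2
          ring
  have := jcount hdn (c := p) (r := 202) (R := 204) (by norm_num) (by norm_num) hne hbound S (by
    intro s hs
    obtain ⟨h1, h2⟩ := hS s hs
    have h3 := hSt n s h2
    have h4 : ‖s - p‖ ≤ |(s - p).re| + |(s - p).im| := Complex.norm_le_abs_re_add_abs_im _
    have h5 : (s - p).re = s.re - 200 := by rw [hp]; simp
    have h6 : (s - p).im = s.im - t := by rw [hp]; simp
    rw [h5, h6] at h4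
    have h7 : |s.re - 200| ≤ |s.re| + 200 := by
      have := abs_sub s.re 200
      have h200 : |(200 : ℝ)| = 200 := by norm_num
      rw [h200] at this
      exact this
    linarith)
  refine this.trans (le_of_eq ?_)
  ring

end Pool.Agent.W125.SD
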